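import Pool.Agent.Helper74.OKA.Defs

/-! # A10: subdivision -/

set_option autoImplicit false

open Set

namespace Pool.Agent.Helper74.OKA

theorem bisect_induction {H : Type*} (Cl Pr : Set H → Prop) (K₀ : Set H) (Ms : List (H → ℝ))
    (δ : ℝ) (hδ : 0 < δ)
    (hCl : ∀ K, Cl K → ∀ m ∈ Ms, ∀ t : ℝ, Cl (K ∩ {x | m x ≤ t}) ∧ Cl (K ∩ {x | t ≤ m x}))
    (hsmall : ∀ K, Cl K → K ⊆ K₀ → (∀ m ∈ Ms, ∀ x ∈ K, ∀ y ∈ K, |m x - m y| ≤ δ) → Pr K)
    (hmerge : ∀ K, Cl K → K ⊆ K₀ → ∀ m ∈ Ms, ∀ t, Pr (K ∩ {x | m x ≤ t}) →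
      Pr (K ∩ {x | t ≤ m x}) → Pr K)
    (hbdd : ∀ m ∈ Ms, ∃ B, ∀ x ∈ K₀, |m x| ≤ B) (h₀ : Cl K₀) : Pr K₀ := by
  classical
  have key : ∀ L : List (H → ℝ), (∀ m ∈ L, m ∈ Ms) → ∀ K, Cl K → K ⊆ K₀ →
      (∀ m ∈ Ms, m ∉ L → ∀ x ∈ K, ∀ y ∈ K, |m x - m y| ≤ δ) → Pr K := by
    intro L
    induction L with
    | nil =>
      intro _ K hK hKK hosc
      exact hsmall K hK hKK fun m hm => hosc m hm (by simp)
    | cons m L ih =>
      intro hL K hK hKK hosc
      have hm : m ∈ Ms := hL m (by simp)
      have ih' := ih fun m' hm' => hL m' (by simp [hm'])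
      have inner : ∀ n : ℕ, ∀ K, Cl K → K ⊆ K₀ →
          (∀ m' ∈ Ms, m' ∉ m :: L → ∀ x ∈ K, ∀ y ∈ K, |m' x - m' y| ≤ δ) →
          ∀ a : ℝ, (∀ x ∈ K, a ≤ m x ∧ m x ≤ a + n * δ) → Pr K := by
        intro n
        induction n with
        | zero =>
          intro K hK hKK hosc a ha
          refine ih' K hK hKK fun m' hm' hn x hx y hy => ?_
          by_cases h : m' = m
          · subst h
            have h1 := ha x hx
            have h2 := ha y hy
            simp only [CharP.cast_eq_zero, zero_mul, add_zero] at h1 h2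
            rw [abs_le]
            constructor <;> linarith [h1.1, h1.2, h2.1, h2.2]
          · exact hosc m' hm' (by simp [h, hn]) x hx y hy
        | succ n ihn =>
          intro K hK hKK hosc a ha
          refine hmerge K hK hKK m hm (a + δ) ?_ ?_
          · refine ih' _ (hCl K hK m hm _).1 (inter_subset_left.trans hKK)
              fun m' hm' hn x hx y hy => ?_
            by_cases h : m' = m
            · subst h
              have h1 := (ha x hx.1).1
              have h2 := (ha y hy.1).1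
              have h3 : m' x ≤ a + δ := hx.2
              have h4 : m' y ≤ a + δ := hy.2
              rw [abs_le]
              constructor <;> linarith
            · exact hosc m' hm' (by simp [h, hn]) x hx.1 y hy.1
          · refine ihn _ (hCl K hK m hm _).2 (inter_subset_left.trans hKK)
              (fun m' hm' hn x hx y hy => hosc m' hm' hn x hx.1 y hy.1) (a + δ) fun x hx => ?_
            have h1 := (ha x hx.1).2
            have h2 : a + δ ≤ m x := hx.2
            push_cast at h1
            exact ⟨h2, by linarith⟩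
      obtain ⟨B, hB⟩ := hbdd m hm
      obtain ⟨n, hn⟩ := exists_nat_ge (2 * B / δ)
      refine inner n K hK hKK hosc (-B) fun x hx => ?_
      have h1 := abs_le.1 (hB x (hKK hx))
      rw [div_le_iff₀ hδ] at hn
      exact ⟨h1.1, by linarith [h1.2]⟩
  exact key Ms (fun m hm => hm) K₀ h₀ subset_rfl fun m hm hn => absurd hm hn

end Pool.Agent.Helper74.OKA
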