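import Pool.Agent.Helper73.OKA.BoxGeo

/-! # A5: the Cousin problem on boxes -/

set_option autoImplicit false

open Set Metric Topology

namespace Pool.Agent.Helper74.OKA

/-- the statement of `exists_split` (A3) -/
def SplitAt (ε R : ℝ) (G F : Type) [NormedAddCommGroup G]
    [NormedSpace ℂ G] [FiniteDimensional ℂ G] [NormedAddCommGroup F] [NormedSpace ℂ F]
    [FiniteDimensional ℂ F] : Prop :=
    ∃ (K : ℝ) (𝒜 ℬ : (ℂ × G → F) → ℂ × G → F), 0 < K ∧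
      (∀ (P : Set G) (c : ℂ × G → F) (M : ℝ), IsOpen P → HB (Cs ε R) P M c →
        DifferentiableOn ℂ (𝒜 c) (As ε R ×ˢ P) ∧ DifferentiableOn ℂ (ℬ c) (Bs ε R ×ˢ P) ∧
        ∀ x ∈ Cs ε R ×ˢ P, ℬ c x - 𝒜 c x = c x) ∧
      (∀ (P : Set G) (c c' : ℂ × G → F) (M : ℝ), IsOpen P → HB (Cs ε R) P M c →
        HB (Cs ε R) P M c' → ∀ p ∈ P, ∀ δ : ℝ, (∀ w ∈ Cs ε R, ‖c (w, p) - c' (w, p)‖ ≤ δ) →
          (∀ w ∈ As ε R, ‖𝒜 c (w, p) - 𝒜 c' (w, p)‖ ≤ K * δ) ∧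
          ∀ w ∈ Bs ε R, ‖ℬ c (w, p) - ℬ c' (w, p)‖ ≤ K * δ) ∧
      (∀ w p, 𝒜 0 (w, p) = 0) ∧ ∀ w p, ℬ 0 (w, p) = 0

namespace A5

variable {G G' F : Type} [NormedAddCommGroup G] [NormedSpace ℂ G]
  [NormedAddCommGroup G'] [NormedSpace ℂ G'] [NormedAddCommGroup F] [NormedSpace ℂ F]

theorem cp_re [FiniteDimensional ℂ G] [FiniteDimensional ℂ G'] [FiniteDimensional ℂ F]
    (hs : ∀ ε R : ℝ, 0 < ε → 0 < R → SplitAt ε R (G × G') F) {ι : Type} [Fintype ι] [DecidableEq ι] (e : ι → G →L[ℂ] ℂ) (v : ι → G)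
    (he : IsCoord e v) (Q : ι → Set ℂ) (hQ : ∀ i, IsRect (Q i)) (P : Set G') (hP : IsOpen P)
    (i : ι) (t : ℝ) :
    CP F P (Poly e Q []) (fun z => (e i z).re) t := by
  rcases (Poly e Q [] ∩ {z | (e i z).re ≤ t}).eq_empty_or_nonempty with h₁ | h₁
  · exact CP.of_empty_left P h₁
  rcases (Poly e Q [] ∩ {z | t ≤ (e i z).re}).eq_empty_or_nonempty with h₂ | h₂
  · exact CP.of_empty_right P h₂
  intro W hW hKW
  obtain ⟨ε, R, τ, P₁, hε, hR, hP₁, hτ, hCW, hKP⟩ := slice he hQ i t h₁ h₂ W hW hKW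
  obtain ⟨C, 𝒜, ℬ, hC, hsol, hbd, h𝒜, hℬ⟩ := hs ε R hε hR
  have hA : IsOpen (As ε R) := by
    refine IsOpen.inter ?_ ?_
    · exact isOpen_lt Complex.continuous_re continuous_const
    · exact isOpen_lt (continuous_abs.comp Complex.continuous_im) continuous_const
  have hB : IsOpen (Bs ε R) := by
    refine IsOpen.inter ?_ ?_
    · exact isOpen_lt continuous_const Complex.continuous_re
    · exact isOpen_lt (continuous_abs.comp Complex.continuous_im) continuous_const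
  set ω : G → ℂ := fun z => e i z - τ with hω
  set γ : G → G := fun z => z - e i z • v i with hγ
  have hωc : Continuous ω := by fun_prop
  have hγc : Continuous γ := by fun_prop
  have hωγ : ∀ z, γ z + (ω z + τ) • v i = z := by
    intro z
    simp [hω, hγ]
  have hPP : IsOpen (P₁ ×ˢ P) := hP₁.prod hP
  -- the map into the product
  set χ : G × G' → ℂ × G × G' := fun x => (ω x.1, (γ x.1, x.2)) with hχ
  have hχd : Differentiable ℂ χ := by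
    rw [hχ, hω, hγ]
    fun_prop
  refine ⟨{z | ω z ∈ As ε R ∧ γ z ∈ P₁}, {z | ω z ∈ Bs ε R ∧ γ z ∈ P₁}, C,
    (hA.preimage hωc).inter (hP₁.preimage hγc), (hB.preimage hωc).inter (hP₁.preimage hγc),
    ?_, ?_, ?_, hC.le, ?_⟩
  · rintro z ⟨hz, hzt⟩
    refine ⟨⟨?_, (hKP z hz).1⟩, (hKP z hz).2⟩
    have : (e i z).re ≤ t := hzt
    simp only [hω, Complex.sub_re, hτ]
    linarith
  · rintro z ⟨hz, hzt⟩
    refine ⟨⟨?_, (hKP z hz).1⟩, (hKP z hz).2⟩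
    have : t ≤ (e i z).re := hzt
    simp only [hω, Complex.sub_re, hτ]
    linarith
  · rintro z ⟨⟨hz1, hz2⟩, ⟨hz3, _⟩⟩
    have : ω z ∈ Cs ε R := ⟨abs_lt.2 ⟨hz3.1, hz1.1⟩, hz1.2⟩
    have h := hCW (ω z) this (γ z) hz2
    rwa [hωγ] at h
  · rintro c ⟨hcd, hc1⟩
    -- the pullback
    set c' : ℂ × G × G' → F := fun x => c (x.2.1 + (x.1 + τ) • v i, x.2.2) with hc'
    have hmaps : MapsTo (fun x : ℂ × G × G' => (x.2.1 + (x.1 + τ) • v i, x.2.2))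
        (Cs ε R ×ˢ P₁ ×ˢ P) (W ×ˢ P) := by
      rintro ⟨w, g, p⟩ ⟨hw, hg, hp⟩
      exact ⟨hCW w hw g hg, hp⟩
    have hHB : HB (Cs ε R) (P₁ ×ˢ P) 1 c' := by
      refine ⟨?_, fun x hx => hc1 _ (hmaps hx)⟩
      refine hcd.comp ?_ hmaps
      apply Differentiable.differentiableOn
      fun_prop
    have hHB0 : HB (Cs ε R) (P₁ ×ˢ P) 1 (0 : ℂ × G × G' → F) := by
      refine ⟨differentiableOn_const 0, fun x _ => by simp⟩
    obtain ⟨hda, hdb, heq⟩ := hsol _ c' 1 hPP hHB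
    refine ⟨fun x => 𝒜 c' (χ x), fun x => ℬ c' (χ x), ⟨?_, ?_⟩, ⟨?_, ?_⟩, ?_, ?_⟩
    · refine hda.comp hχd.differentiableOn ?_
      rintro ⟨z, p⟩ ⟨⟨hz1, hz2⟩, hp⟩
      exact ⟨hz1, hz2, hp⟩
    · rintro ⟨z, p⟩ ⟨⟨hz1, hz2⟩, hp⟩
      have h := (hbd _ c' 0 1 hPP hHB hHB0 (γ z, p) ⟨hz2, hp⟩ 1
        (fun w hw => by simpa using hHB.2 (w, γ z, p) ⟨hw, hz2, hp⟩)).1 (ω z) hz1
      rw [h𝒜, sub_zero, mul_one] at h
      exact h
    · refine hdb.comp hχd.differentiableOn ?_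
      rintro ⟨z, p⟩ ⟨⟨hz1, hz2⟩, hp⟩
      exact ⟨hz1, hz2, hp⟩
    · rintro ⟨z, p⟩ ⟨⟨hz1, hz2⟩, hp⟩
      have h := (hbd _ c' 0 1 hPP hHB hHB0 (γ z, p) ⟨hz2, hp⟩ 1
        (fun w hw => by simpa using hHB.2 (w, γ z, p) ⟨hw, hz2, hp⟩)).2 (ω z) hz1
      rw [hℬ, sub_zero, mul_one] at h
      exact h
    · rintro z ⟨⟨hz1, hz2⟩, ⟨hz3, _⟩⟩ p hp
      have hz : ω z ∈ Cs ε R := ⟨abs_lt.2 ⟨hz3.1, hz1.1⟩, hz1.2⟩
      have h := heq (χ (z, p)) ⟨hz, hz2, hp⟩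
      refine h.trans ?_
      simp only [hc', hχ]
      rw [hωγ]
    · intro p hp h0
      have hz0 : ∀ g ∈ P₁, ∀ w ∈ Cs ε R,
          ‖c' (w, (g, p)) - (0 : ℂ × G × G' → F) (w, (g, p))‖ ≤ 0 := by
        intro g hg w hw
        have : c' (w, (g, p)) = 0 := h0 _ (hCW w hw g hg)
        rw [this]
        simp
      constructor
      · rintro z ⟨hz1, hz2⟩
        have h := (hbd _ c' 0 1 hPP hHB hHB0 (γ z, p) ⟨hz2, hp⟩ 0 (hz0 _ hz2)).1 (ω z) hz1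
        rw [h𝒜, sub_zero, mul_zero] at h
        exact norm_le_zero_iff.1 h
      · rintro z ⟨hz1, hz2⟩
        have h := (hbd _ c' 0 1 hPP hHB hHB0 (γ z, p) ⟨hz2, hp⟩ 0 (hz0 _ hz2)).2 (ω z) hz1
        rw [hℬ, sub_zero, mul_zero] at h
        exact norm_le_zero_iff.1 h

end A5

section

variable {G G' F : Type} [NormedAddCommGroup G] [NormedSpace ℂ G] [FiniteDimensional ℂ G]
  [NormedAddCommGroup G'] [NormedSpace ℂ G'] [FiniteDimensional ℂ G']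
  [NormedAddCommGroup F] [NormedSpace ℂ F] [FiniteDimensional ℂ F]

theorem cp_box_of (hs : ∀ ε R : ℝ, 0 < ε → 0 < R → SplitAt ε R (G × G') F) {ι : Type} [Fintype ι] [DecidableEq ι] (e : ι → G →L[ℂ] ℂ) (v : ι → G)
    (he : IsCoord e v) (Q : ι → Set ℂ) (hQ : ∀ i, IsRect (Q i)) (P : Set G') (hP : IsOpen P)
    (i : ι) (t : ℝ) :
    CP F P (Poly e Q []) (fun z => (e i z).re) t ∧
      CP F P (Poly e Q []) (fun z => (e i z).im) t := by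
  refine ⟨A5.cp_re hs e v he Q hQ P hP i t, ?_⟩
  obtain ⟨e', v', Q', he', hQ', hPoly, him⟩ := A5.rot he hQ i
  have h := A5.cp_re hs e' v' he' Q' hQ' P hP i t
  rw [hPoly] at h
  simp only [him] at h
  exact h

end

end Pool.Agent.Helper74.OKA
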