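import Pool.Agent.Helper74.OKA.Defs

/-! # B1: entire approximations of `1/cosh (κ z)` and `tanh (κ z)` near the segment -/

set_option autoImplicit false

open Set

namespace Pool.Agent.Helper74.OKA

namespace B1

/-- partial sums of the geometric series of `1/(1+u)` about `M` -/
noncomputable def S (M : ℝ) (n : ℕ) (u : ℂ) : ℂ :=
  ∑ k ∈ Finset.range n, (M - u) ^ k / (1 + M) ^ (k + 1)

theorem S_eq {M : ℝ} (hM : 0 < M) (n : ℕ) {u : ℂ} (hu : 1 + u ≠ 0) :
    S M n u - (1 + u)⁻¹ = -(((M - u) / (1 + M)) ^ n * (1 + u)⁻¹) := by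
  have hM' : (1 + (M : ℂ)) ≠ 0 := by
    have : (1 + M : ℝ) ≠ 0 := by positivity
    exact_mod_cast this
  induction n with
  | zero => simp [S]
  | succ n ih =>
    have h1 : S M (n + 1) u = S M n u + (M - u) ^ n / (1 + M) ^ (n + 1) := by
      simp [S, Finset.sum_range_succ]
    have h2 : S M (n + 1) u - (1 + u)⁻¹ = (S M n u - (1 + u)⁻¹) + (M - u) ^ n / (1 + M) ^ (n + 1) := by
      rw [h1]; ring
    rw [h2, ih, div_pow, div_pow]
    field_simp
    ring

theorem differentiable_S (M : ℝ) (n : ℕ) : Differentiable ℂ (S M n) := by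
  unfold S
  fun_prop

theorem norm_S_sub {M : ℝ} (hM : 0 < M) (n : ℕ) {u : ℂ} (hu : 0 ≤ u.re) (hu' : ‖u‖ ^ 2 ≤ M) :
    ‖S M n u - (1 + u)⁻¹‖ ≤ Real.sqrt (M / (1 + M)) ^ n := by
  have h1 : 1 ≤ ‖1 + u‖ := by
    have := Complex.re_le_norm (1 + u)
    simp only [Complex.add_re, Complex.one_re] at this
    linarith
  have h0 : (1 + u) ≠ 0 := by
    intro h
    rw [h, norm_zero] at h1
    linarith
  rw [S_eq hM n h0, norm_neg, norm_mul, norm_pow, norm_div]
  have h2 : ‖(1 + M : ℂ)‖ = 1 + M := by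
    have : (1 + (M : ℂ)) = ((1 + M : ℝ) : ℂ) := by push_cast; rfl
    rw [this, Complex.norm_real, Real.norm_eq_abs, abs_of_pos (by positivity)]
  have h3 : ‖(M - u : ℂ)‖ ≤ Real.sqrt (M * (1 + M)) := by
    apply Real.le_sqrt_of_sq_le
    rw [← Complex.normSq_eq_norm_sq] at hu' ⊢
    rw [Complex.normSq_apply] at hu' ⊢
    simp only [Complex.sub_re, Complex.sub_im, Complex.ofReal_re, Complex.ofReal_im]
    nlinarith [mul_nonneg hM.le hu]
  have h4 : ‖(M - u : ℂ)‖ / ‖(1 + M : ℂ)‖ ≤ Real.sqrt (M / (1 + M)) := by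
    rw [h2, div_le_iff₀ (by positivity)]
    refine h3.trans (le_of_eq ?_)
    have : (1 + M) = Real.sqrt ((1 + M) ^ 2) := by
      rw [Real.sqrt_sq (by positivity)]
    conv_rhs => rw [this]
    rw [← Real.sqrt_mul (by positivity)]
    congr 1
    have h5 : Real.sqrt ((1 + M) ^ 2) = 1 + M := by
      rw [Real.sqrt_sq (by positivity)]
    rw [h5]
    field_simp
  have h5 : ‖(1 + u)⁻¹‖ ≤ 1 := by
    rw [norm_inv]
    exact inv_le_one_of_one_le₀ h1
  calc (‖(M - u : ℂ)‖ / ‖(1 + M : ℂ)‖) ^ n * ‖(1 + u)⁻¹‖ ≤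
      Real.sqrt (M / (1 + M)) ^ n * 1 := by
        apply mul_le_mul _ h5 (norm_nonneg _) (by positivity)
        exact pow_le_pow_left₀ (by positivity) h4 n
    _ = _ := mul_one _

theorem approx {M : ℝ} (hM : 0 < M) {ε : ℝ} (hε : 0 < ε) : ∃ n : ℕ, ∀ u : ℂ, 0 ≤ u.re →
    ‖u‖ ^ 2 ≤ M → ‖S M n u - (1 + u)⁻¹‖ < ε := by
  have h1 : Real.sqrt (M / (1 + M)) < 1 := by
    rw [Real.sqrt_lt' one_pos, one_pow, div_lt_one (by positivity)]
    linarith
  obtain ⟨n, hn⟩ := exists_pow_lt_of_lt_one hε h1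
  exact ⟨n, fun u hu hu' => (norm_S_sub hM n hu hu').trans_lt hn⟩

theorem tanh_aux {w : ℂ} (hw : w ≠ 0) (h0 : 1 + w * w ≠ 0) :
    (w - w⁻¹) / 2 / ((w + w⁻¹) / 2) = 1 - 2 * (1 + w * w)⁻¹ := by
  have h1 : w + w⁻¹ = (1 + w * w) * w⁻¹ := by
    field_simp
    ring
  have h2 : w - w⁻¹ = ((1 + w * w) - 2) * w⁻¹ := by
    field_simp
    ring
  rw [h1, h2]
  generalize 1 + w * w = q at h0 ⊢
  field_simp

end B1

open B1 in
/-- B1: entire approximations of `1/cosh (κ z)` and `tanh (κ z)` near the segment -/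
theorem entire_approx (κ : ℝ) (hκ : 0 < κ) : ∃ W : Set ℂ, IsOpen W ∧ seg ⊆ W ∧
    (∀ z ∈ W, |z.im| < Real.pi / (4 * κ)) ∧ ∀ ε > 0, ∃ f g : ℂ → ℂ, Differentiable ℂ f ∧
      Differentiable ℂ g ∧ ∀ z ∈ W, ‖f z - (Complex.cosh (κ * z))⁻¹‖ < ε ∧
        ‖g z - Complex.tanh (κ * z)‖ < ε := by
  have hpi := Real.pi_pos
  refine ⟨{z | |z.re| < 2 ∧ |z.im| < Real.pi / (4 * κ)}, ?_, ?_, fun z hz => hz.2, ?_⟩
  · apply IsOpen.inter
    · exact isOpen_lt (continuous_abs.comp Complex.continuous_re) continuous_const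
    · exact isOpen_lt (continuous_abs.comp Complex.continuous_im) continuous_const
  · rintro z ⟨h1, h2⟩
    refine ⟨by linarith, ?_⟩
    rw [h1, abs_zero]
    positivity
  · intro ε hε
    set M : ℝ := Real.exp (4 * κ) ^ 2 with hM
    have hM0 : 0 < M := by positivity
    set ε' : ℝ := ε / (2 * Real.exp (2 * κ)) with hε'
    have hε'0 : 0 < ε' := by positivity
    obtain ⟨n, hn⟩ := approx hM0 hε'0
    have hle : 2 * ε' ≤ ε := by
      have h1 : (1 : ℝ) ≤ Real.exp (2 * κ) := Real.one_le_exp (by positivity)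
      have h2 : ε = 2 * Real.exp (2 * κ) * ε' := by
        rw [hε']
        field_simp
      nlinarith
    refine ⟨fun z => 2 * Complex.exp (κ * z) * S M n (Complex.exp (2 * κ * z)),
      fun z => 1 - 2 * S M n (Complex.exp (2 * κ * z)), ?_, ?_, ?_⟩
    · have := (differentiable_S M n)
      exact ((Complex.differentiable_exp.comp (by fun_prop)).const_mul 2).mul
        (this.comp (Complex.differentiable_exp.comp (by fun_prop)))
    · have := (differentiable_S M n)
      exact (differentiable_const 1).sub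
        ((this.comp (Complex.differentiable_exp.comp (by fun_prop))).const_mul 2)
    · rintro z ⟨hz1, hz2⟩
      set u : ℂ := Complex.exp (2 * κ * z) with hu
      have hre : (2 * κ * z : ℂ).re = 2 * κ * z.re := by simp
      have him : (2 * κ * z : ℂ).im = 2 * κ * z.im := by simp
      have hure : 0 ≤ u.re := by
        rw [hu, Complex.exp_re]
        apply mul_nonneg (Real.exp_pos _).le
        rw [him]
        apply Real.cos_nonneg_of_mem_Icc
        have h1 : |2 * κ * z.im| ≤ Real.pi / 2 := by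
          rw [abs_mul, abs_of_pos (by positivity : 0 < 2 * κ)]
          calc 2 * κ * |z.im| ≤ 2 * κ * (Real.pi / (4 * κ)) := by gcongr
            _ = Real.pi / 2 := by field_simp; ring
        rw [abs_le] at h1
        exact ⟨by linarith [h1.1], h1.2⟩
      have hun : ‖u‖ ^ 2 ≤ M := by
        rw [hu, Complex.norm_exp, hre, hM]
        apply pow_le_pow_left₀ (Real.exp_pos _).le
        apply Real.exp_le_exp.2
        have := (abs_lt.1 hz1).2
        nlinarith
      have h := hn u hure hun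
      have h0 : (1 + u) ≠ 0 := by
        intro h0
        have := congrArg Complex.re h0
        simp at this
        linarith
      have hE : Complex.exp (κ * z) ≠ 0 := Complex.exp_ne_zero _
      have hu2 : u = Complex.exp (κ * z) * Complex.exp (κ * z) := by
        rw [← Complex.exp_add, hu]
        ring_nf
      constructor
      · have h1 : (Complex.cosh (κ * z))⁻¹ = 2 * Complex.exp (κ * z) * (1 + u)⁻¹ := by
          rw [Complex.cosh, Complex.exp_neg, hu2]
          rw [hu2] at h0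
          field_simp
          ring
        rw [h1, ← mul_sub, norm_mul, norm_mul, Complex.norm_exp]
        have h2 : (κ * z : ℂ).re = κ * z.re := by simp
        rw [h2]
        have h3 : ‖(2 : ℂ)‖ = 2 := by simp
        rw [h3]
        have h4 : Real.exp (κ * z.re) ≤ Real.exp (2 * κ) := by
          apply Real.exp_le_exp.2
          have := (abs_lt.1 hz1).2
          nlinarith
        calc 2 * Real.exp (κ * z.re) * ‖S M n u - (1 + u)⁻¹‖ ≤
            2 * Real.exp (2 * κ) * ‖S M n u - (1 + u)⁻¹‖ := by gcongr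
          _ < 2 * Real.exp (2 * κ) * ε' := by gcongr
          _ = ε := by rw [hε']; field_simp
      · have h1 : Complex.tanh (κ * z) = 1 - 2 * (1 + u)⁻¹ := by
          rw [Complex.tanh_eq_sinh_div_cosh, Complex.sinh, Complex.cosh, Complex.exp_neg, hu2]
          rw [hu2] at h0
          exact tanh_aux hE h0
        rw [h1]
        have h2 : (1 - 2 * S M n u - (1 - 2 * (1 + u)⁻¹)) = -(2 * (S M n u - (1 + u)⁻¹)) := by ring
        rw [h2, norm_neg, norm_mul]
        have h3 : ‖(2 : ℂ)‖ = 2 := by simp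
        rw [h3]
        linarith

end Pool.Agent.Helper74.OKA
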