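import Pool.Agent.Helper74.OKA.Defs

/-! # A5, A6: geometry of boxes -/

set_option autoImplicit false

open Set Metric Topology

namespace Pool.Agent.Helper74.OKA

namespace A5

variable {G G' F : Type} [NormedAddCommGroup G] [NormedSpace ℂ G]
  [NormedAddCommGroup G'] [NormedSpace ℂ G'] [NormedAddCommGroup F] [NormedSpace ℂ F]

theorem IsRect.isCompact {Q : Set ℂ} (h : IsRect Q) : IsCompact Q := by
  obtain ⟨a, b, c, d, rfl⟩ := h
  have h1 : {w : ℂ | a ≤ w.re ∧ w.re ≤ b ∧ c ≤ w.im ∧ w.im ≤ d} = Icc a b ×ℂ Icc c d := by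
    ext w
    simp only [mem_ofPred_eq, Complex.mem_reProdIm, mem_Icc]
    tauto
  rw [h1]
  exact isCompact_Icc.reProdIm isCompact_Icc

theorem isCompact_box {ι : Type} [Fintype ι] [DecidableEq ι] {e : ι → G →L[ℂ] ℂ} {v : ι → G}
    (he : IsCoord e v) {Q : ι → Set ℂ} (hQ : ∀ i, IsCompact (Q i)) :
    IsCompact (Poly e Q []) := by
  have h1 : Poly e Q [] = (fun x : ι → ℂ => ∑ i, x i • v i) '' (univ.pi Q) := by
    ext z
    simp only [Poly, List.not_mem_nil, IsEmpty.forall_iff, implies_true, and_true, mem_ofPred_eq,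
      mem_image, mem_univ_pi]
    constructor
    · intro h
      exact ⟨fun i => e i z, h, he.2 z⟩
    · rintro ⟨x, hx, rfl⟩ j
      rw [map_sum]
      simp only [map_smul, he.1, smul_eq_mul, mul_ite, mul_one, mul_zero, Finset.sum_ite_eq,
        Finset.mem_univ, if_true]
      exact hx j
  rw [h1]
  apply (isCompact_univ_pi hQ).image
  fun_prop

theorem CP.of_empty_left (P : Set G') {K : Set G} {m : G → ℝ} {t : ℝ}
    (h : K ∩ {z | m z ≤ t} = ∅) : CP F P K m t := by
  intro W _ _
  refine ⟨∅, univ, 0, isOpen_empty, isOpen_univ, h.subset, subset_univ _, by simp, le_rfl, ?_⟩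
  intro c _
  refine ⟨0, 0, ⟨?_, ?_⟩, ⟨?_, ?_⟩, ?_, ?_⟩
  · exact differentiableOn_const 0
  · simp
  · exact differentiableOn_const 0
  · simp
  · simp
  · simp

theorem CP.of_empty_right (P : Set G') {K : Set G} {m : G → ℝ} {t : ℝ}
    (h : K ∩ {z | t ≤ m z} = ∅) : CP F P K m t := by
  intro W _ _
  refine ⟨univ, ∅, 0, isOpen_univ, isOpen_empty, subset_univ _, h.subset, by simp, le_rfl, ?_⟩
  intro c _
  refine ⟨0, 0, ⟨?_, ?_⟩, ⟨?_, ?_⟩, ?_, ?_⟩
  · exact differentiableOn_const 0
  · simp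
  · exact differentiableOn_const 0
  · simp
  · simp
  · simp

omit [NormedSpace ℂ G] in
/-- tube lemma: a neighbourhood of a vertical segment times a compact set -/
theorem tube {h : ℝ} (K : Set G) (hK : IsCompact K) (n : Set (ℂ × G)) (hn : IsOpen n)
    (hs : {w : ℂ | w.re = 0 ∧ |w.im| ≤ h} ×ˢ K ⊆ n) (hh : 0 ≤ h) :
    ∃ (ε R : ℝ) (P : Set G), 0 < ε ∧ 0 < R ∧ h < R ∧ IsOpen P ∧ K ⊆ P ∧ Cs ε R ×ˢ P ⊆ n := by
  have hc : IsCompact {w : ℂ | w.re = 0 ∧ |w.im| ≤ h} := by
    apply IsRect.isCompact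
    refine ⟨0, 0, -h, h, ?_⟩
    ext w
    simp only [mem_ofPred_eq, abs_le]
    constructor
    · rintro ⟨h1, h2⟩
      exact ⟨h1.ge, h1.le, h2⟩
    · rintro ⟨h1, h2, h3⟩
      exact ⟨le_antisymm h2 h1, h3⟩
  obtain ⟨u, P, hu, hP, hsu, hKP, hsub⟩ := generalized_tube_lemma hc hK hn hs
  obtain ⟨δ, hδ, hδu⟩ := hc.exists_thickening_subset_open hu hsu
  refine ⟨δ / 2, h + δ / 2, P, by positivity, by positivity, by linarith, hP, hKP, ?_⟩
  refine (prod_mono ?_ subset_rfl).trans hsub
  refine Subset.trans ?_ hδu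
  rintro w ⟨hw1, hw2⟩
  rw [mem_thickening_iff]
  -- the clamp
  set y : ℝ := max (-h) (min h w.im) with hy
  have hyle : |y| ≤ h := by
    rw [abs_le]
    exact ⟨le_max_left _ _, max_le (by linarith) (min_le_left _ _)⟩
  have hyd : |w.im - y| < δ / 2 := by
    rw [abs_lt] at hw2 ⊢
    rcases le_total w.im h with h1 | h1
    · rw [min_eq_right h1] at hy
      rcases le_total (-h) w.im with h2 | h2
      · rw [max_eq_right h2] at hy
        rw [hy]
        constructor <;> linarith
      · rw [max_eq_left h2] at hy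
        rw [hy]
        constructor <;> linarith [hw2.1, hw2.2]
    · rw [min_eq_left h1, max_eq_right (by linarith)] at hy
      rw [hy]
      constructor <;> linarith [hw2.1, hw2.2]
  refine ⟨⟨0, y⟩, ⟨rfl, hyle⟩, ?_⟩
  rw [Complex.dist_eq]
  calc ‖w - ⟨0, y⟩‖ ≤ |(w - ⟨0, y⟩ : ℂ).re| + |(w - ⟨0, y⟩ : ℂ).im| :=
        Complex.norm_le_abs_re_add_abs_im _
    _ = |w.re| + |w.im - y| := by simp
    _ < δ := by linarith

/-- the slice geometry -/
theorem slice {ι : Type} [Fintype ι] [DecidableEq ι] {e : ι → G →L[ℂ] ℂ} {v : ι → G}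
    (he : IsCoord e v) {Q : ι → Set ℂ} (hQ : ∀ i, IsRect (Q i)) (i : ι) (t : ℝ)
    (h₁ : (Poly e Q [] ∩ {z | (e i z).re ≤ t}).Nonempty)
    (h₂ : (Poly e Q [] ∩ {z | t ≤ (e i z).re}).Nonempty)
    (W : Set G) (hW : IsOpen W) (hKW : Poly e Q [] ∩ {z | (e i z).re = t} ⊆ W) :
    ∃ (ε R : ℝ) (τ : ℂ) (P : Set G), 0 < ε ∧ 0 < R ∧ IsOpen P ∧ τ.re = t ∧
      (∀ w ∈ Cs ε R, ∀ g ∈ P, g + (w + τ) • v i ∈ W) ∧
      ∀ z ∈ Poly e Q [], |(e i z - τ).im| < R ∧ z - e i z • v i ∈ P := by
  obtain ⟨a, b, c, d, hi⟩ := hQ i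
  obtain ⟨z₁, hz₁, ht₁⟩ := h₁
  obtain ⟨z₂, hz₂, ht₂⟩ := h₂
  have hz₁' : e i z₁ ∈ Q i := hz₁.1 i
  have hz₂' : e i z₂ ∈ Q i := hz₂.1 i
  rw [hi] at hz₁' hz₂'
  have hat : a ≤ t := hz₁'.1.trans ht₁
  have htb : t ≤ b := le_trans ht₂ hz₂'.2.1
  have hcd : c ≤ d := hz₁'.2.2.1.trans hz₁'.2.2.2
  -- the compact set of parameters
  set Q' : ι → Set ℂ := Function.update Q i {0} with hQ'
  have hQ'c : ∀ j, IsCompact (Q' j) := by
    intro j
    by_cases h : j = i
    · subst h
      rw [hQ', Function.update_self]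
      exact isCompact_singleton
    · rw [hQ', Function.update_of_ne h]
      exact IsRect.isCompact (hQ j)
  have hK' : IsCompact (Poly e Q' []) := isCompact_box he hQ'c
  set τ : ℂ := ⟨t, (c + d) / 2⟩ with hτ
  have hφ : Continuous (fun x : ℂ × G => x.2 + (x.1 + τ) • v i) := by fun_prop
  have hei : e i (v i) = 1 := by rw [he.1]; simp
  have hej : ∀ j, j ≠ i → e j (v i) = 0 := by
    intro j hj
    rw [he.1, if_neg hj]
  have hsub : {w : ℂ | w.re = 0 ∧ |w.im| ≤ (d - c) / 2} ×ˢ Poly e Q' [] ⊆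
      (fun x : ℂ × G => x.2 + (x.1 + τ) • v i) ⁻¹' W := by
    rintro ⟨w, g⟩ ⟨⟨hw1, hw2⟩, hg⟩
    have hgi : e i g = 0 := by
      have := hg.1 i
      rw [hQ', Function.update_self] at this
      exact this
    apply hKW
    simp only at hw1 hw2 ⊢
    refine ⟨⟨fun j => ?_, by simp⟩, ?_⟩
    · by_cases h : j = i
      · subst h
        rw [map_add, map_smul, hei, hgi, smul_eq_mul, mul_one, zero_add, hi]
        rw [abs_le] at hw2
        refine ⟨?_, ?_, ?_, ?_⟩
        · simp [hw1, hτ, hat]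
        · simp [hw1, hτ, htb]
        · simp only [Complex.add_im, hτ]; linarith
        · simp only [Complex.add_im, hτ]; linarith
      · rw [map_add, map_smul, hej j h, smul_zero, add_zero]
        have := hg.1 j
        rw [hQ', Function.update_of_ne h] at this
        exact this
    · simp [hei, hgi, hw1, hτ]
  obtain ⟨ε, R, P, hε, hR, hhR, hP, hKP, hCP⟩ := tube (Poly e Q' []) hK' _ (hW.preimage hφ) hsub
    (by linarith)
  refine ⟨ε, R, τ, P, hε, hR, hP, rfl, fun w hw g hg => hCP (show (w, g) ∈ Cs ε R ×ˢ P from ⟨hw, hg⟩), fun z hz => ⟨?_, ?_⟩⟩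
  · have hzi := hz.1 i
    rw [hi] at hzi
    obtain ⟨_, _, h3, h4⟩ := hzi
    refine lt_of_le_of_lt ?_ hhR
    simp only [Complex.sub_im, hτ]
    rw [abs_le]
    constructor <;> linarith
  · apply hKP
    refine ⟨fun j => ?_, by simp⟩
    by_cases h : j = i
    · subst h
      rw [map_sub, map_smul, hei, hQ', Function.update_self]
      simp
    · rw [map_sub, map_smul, hej j h, hQ', Function.update_of_ne h]
      simpa using hz.1 j

/-- rotation of one coordinate by `-i` -/
theorem rot {ι : Type} [Fintype ι] [DecidableEq ι] {e : ι → G →L[ℂ] ℂ} {v : ι → G}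
    (he : IsCoord e v) {Q : ι → Set ℂ} (hQ : ∀ i, IsRect (Q i)) (i : ι) :
    ∃ (e' : ι → G →L[ℂ] ℂ) (v' : ι → G) (Q' : ι → Set ℂ), IsCoord e' v' ∧ (∀ j, IsRect (Q' j)) ∧
      Poly e' Q' [] = Poly e Q [] ∧ ∀ z, (e' i z).re = (e i z).im := by
  have hI : (-Complex.I) * Complex.I = 1 := by simp
  refine ⟨Function.update e i ((-Complex.I) • e i), Function.update v i (Complex.I • v i),
    Function.update Q i ((fun w => Complex.I * w) ⁻¹' Q i), ⟨?_, ?_⟩, ?_, ?_, ?_⟩
  · intro j k
    by_cases hj : j = i <;> by_cases hk : k = i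
    · subst hj; subst hk
      rw [Function.update_self, Function.update_self]
      simp only [smul_apply, map_smul, he.1, if_true, smul_eq_mul, mul_one]
      rw [mul_comm]
      exact hI
    · subst hj
      rw [Function.update_self, Function.update_of_ne hk]
      simp only [smul_apply, he.1, if_neg (Ne.symm hk), smul_zero]
    · subst hk
      rw [Function.update_self, Function.update_of_ne hj]
      simp only [map_smul, he.1, if_neg hj, smul_zero]
    · rw [Function.update_of_ne hj, Function.update_of_ne hk, he.1]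
  · intro z
    conv_rhs => rw [← he.2 z]
    refine Finset.sum_congr rfl fun j _ => ?_
    by_cases hj : j = i
    · subst hj
      rw [Function.update_self, Function.update_self]
      rw [smul_apply, smul_eq_mul, smul_smul]
      congr 1
      rw [mul_right_comm, hI, one_mul]
    · rw [Function.update_of_ne hj, Function.update_of_ne hj]
  · intro j
    by_cases hj : j = i
    · subst hj
      rw [Function.update_self]
      obtain ⟨a, b, c, d, h⟩ := hQ j
      refine ⟨c, d, -b, -a, ?_⟩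
      rw [h]
      ext w
      simp only [mem_preimage, mem_ofPred_eq, Complex.mul_re, Complex.mul_im, Complex.I_re,
        Complex.I_im, zero_mul, one_mul, zero_sub, zero_add]
      constructor
      · rintro ⟨h1, h2, h3, h4⟩
        exact ⟨h3, h4, by linarith, by linarith⟩
      · rintro ⟨h1, h2, h3, h4⟩
        exact ⟨by linarith, by linarith, h1, h2⟩
    · rw [Function.update_of_ne hj]
      exact hQ j
  · ext z
    simp only [Poly, List.not_mem_nil, IsEmpty.forall_iff, implies_true, and_true, mem_ofPred_eq]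
    refine forall_congr' fun j => ?_
    by_cases hj : j = i
    · subst hj
      rw [Function.update_self, Function.update_self, mem_preimage,
        smul_apply, smul_eq_mul, ← mul_assoc, mul_comm Complex.I, hI, one_mul]
    · rw [Function.update_of_ne hj, Function.update_of_ne hj]
  · intro z
    rw [Function.update_self]
    simp

end A5

end Pool.Agent.Helper74.OKA
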